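import Pool.Agent.Q23.SP.Tenth

/-!
# The products `S_p` at the primitive tenth roots of unity

Let `N_p` be the product over the nonresidues.  As `2` is a nonresidue and `5` is a residue,
`S_p(η) S_p(-η) = N_p(η^2)`, `(η^2 - 1) S_p(η^2) N_p(η^2) = η^(2p) - 1` and
`S_p(η) S_p(η^2) S_p(η^3) S_p(η^4) = 1` for the primitive fifth roots of unity `η`; together with
`S_p(x) = x^((p-1)/4) R(x + 1/x)` for a real polynomial `R` these give `S_p(-η)` up to a sign which does
not depend on `η`, and the sign of `R(2 cos(2π/10))` is found by counting its negative factors.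
-/

set_option autoImplicit false

open Complex

namespace Pool.Agent.Results.MP_10d431_nt.TenthRoots

/-- `S_p(x)`, the product of `x - exp(2 π i k^2 / p)` over `1 ≤ k ≤ (p - 1) / 2` -/
noncomputable def S (p : ℕ) (x : ℂ) : ℂ :=
  ∏ k ∈ Finset.Icc 1 ((p - 1) / 2), (x - exp (2 * (Real.pi : ℂ) * I * (k : ℂ) ^ 2 / p))

/-- `n_p(T)`, the number of the integers `1 ≤ k ≤ T` with `(k / p) = -1` -/
def n (p : ℕ) [Fact p.Prime] (T : ℕ) : ℕ :=
  ((Finset.Icc 1 T).filter (fun k : ℕ => legendreSym p (k : ℤ) = -1)).card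

lemma n_eq {p : ℕ} [Fact p.Prime] {T : ℕ} (hT : T < p) :
    (-1 : ℤ) ^ n p T = ∏ k ∈ Finset.Icc 1 T, quadraticChar (ZMod p) ((k : ℕ) : ZMod p) := by
  rw [← Pool.Agent.Q23.SP.count_neg T hT, n]
  simp only [legendreSym, Int.cast_natCast]

/-- **Main result.** -/
theorem result : ∀ (p : ℕ) [Fact p.Prime] (ζ : ℂ), IsPrimitiveRoot ζ 10 →
    (p % 40 = 21 → S p ζ = (-1) ^ n p ((p + 9) / 10)) ∧
    (p % 40 = 29 → S p ζ = (-1) ^ n p ((p + 1) / 10) * ζ ^ 2) := by
  intro p _ ζ hζ
  have hpp := (Fact.out : p.Prime)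
  have hS : p ≠ 2 → S p ζ = Pool.Agent.Q23.SP.S p ζ := fun h => Pool.Agent.Q23.SP.S_eq h ζ
  have hfif : Pool.Agent.Q23.SP.Fif (-ζ) := by
    have h5 : ζ ^ 5 = -1 := by
      have h1 : (ζ ^ 5 - 1) * (ζ ^ 5 + 1) = 0 := by
        have := hζ.pow_eq_one
        linear_combination this
      rcases mul_eq_zero.1 h1 with h | h
      · exfalso
        have := hζ.dvd_of_pow_eq_one 5 (by linear_combination h)
        omega
      · linear_combination h
    have h1 : (-ζ - 1) * (1 + (-ζ) + (-ζ) ^ 2 + (-ζ) ^ 3 + (-ζ) ^ 4) = 0 := by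
      linear_combination (-1 : ℂ) * h5
    rcases mul_eq_zero.1 h1 with h | h
    · exfalso
      have h2 : ζ ^ 2 = 1 := by
        have : ζ = -1 := by linear_combination -h
        rw [this]; norm_num
      have := hζ.dvd_of_pow_eq_one 2 h2
      omega
    · exact h
  -- the characters of `2`, `5`
  have char2 : p % 8 = 5 → quadraticChar (ZMod p) 2 = -1 := by
    intro h
    rw [quadraticChar_two (by rw [ZMod.ringChar_zmod_n]; omega), ZMod.card,
      ZMod.χ₈_nat_eq_if_mod_eight, if_neg (by omega), if_neg (by omega)]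
  have char5 : p % 4 = 1 → (p % 5 = 1 ∨ p % 5 = 4) → quadraticChar (ZMod p) 5 = 1 := by
    intro h h'
    have : Fact (Nat.Prime 5) := ⟨by norm_num⟩
    have q5 := legendreSym.quadratic_reciprocity_one_mod_four (p := p) (q := 5) h (by norm_num)
    have h1 : legendreSym 5 (p : ℤ) = 1 := by
      rw [legendreSym.mod]
      rcases h' with h2 | h2
      · rw [show (p : ℤ) % ((5 : ℕ) : ℤ) = 1 by omega]; norm_num
      · rw [show (p : ℤ) % ((5 : ℕ) : ℤ) = 4 by omega]; norm_num
    rw [h1] at q5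
    rw [legendreSym] at q5
    push_cast at q5
    exact q5.symm
  refine ⟨fun h21 => ?_, fun h29 => ?_⟩
  · have c2 := char2 (by omega)
    have c5 := char5 (by omega) (by omega)
    have h1 := Pool.Agent.Q23.SP.caseA h21 c2 c5 hfif
    rw [neg_neg] at h1
    have h2 := Pool.Agent.Q23.SP.EE_caseA h21 c2 c5
    have h3 := Pool.Agent.Q23.SP.EE_sq (p := p) (by omega) c5
    have h4 : Pool.Agent.Q23.SP.R p Pool.Agent.Q23.SP.gold = 1 ∨
        Pool.Agent.Q23.SP.R p Pool.Agent.Q23.SP.gold = -1 := by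
      rw [h2, neg_sq, sq_eq_one_iff] at h3
      exact h3
    have h5 := Pool.Agent.Q23.SP.R_gold_eq (p := p) (by omega) h4
    have h6 : ((-1 : ℤ) ^ n p ((p + 9) / 10)) = -(-1 : ℤ) ^ ((Finset.Icc 1 (p / 10)).filter
      (fun k : ℕ => quadraticChar (ZMod p) (k : ZMod p) = 1)).card := by
      rw [n_eq (by omega), Pool.Agent.Q23.SP.count_pos _ (by omega) (by
        rw [Nat.even_iff]; omega)]
      rw [show (p + 9) / 10 = p / 10 + 1 by omega, Finset.prod_Icc_succ_top (by omega)]
      have h7 : quadraticChar (ZMod p) ((p / 10 + 1 : ℕ) : ZMod p) = -1 := by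
        have h8 : ((10 * (p / 10 + 1) : ℕ) : ZMod p) = 3 ^ 2 := by
          rw [show 10 * (p / 10 + 1) = p + 9 by omega]
          push_cast
          rw [CharP.cast_eq_zero]
          norm_num
        have h9 : (3 : ZMod p) ≠ 0 := by
          intro h10
          have h11 : ((3 : ℕ) : ZMod p) = 0 := by exact_mod_cast h10
          rw [ZMod.natCast_eq_zero_iff] at h11
          have := Nat.le_of_dvd (by norm_num) h11
          omega
        have h10 := congrArg (quadraticChar (ZMod p)) h8
        rw [quadraticChar_sq_one' h9, Nat.cast_mul, map_mul,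
          show ((10 : ℕ) : ZMod p) = 2 * 5 by push_cast; norm_num, map_mul, c2, c5] at h10
        linarith
      rw [h7]
      ring
    have h7 : ((-1 : ℂ) ^ n p ((p + 9) / 10)) = -(-1 : ℂ) ^ ((Finset.Icc 1 (p / 10)).filter
      (fun k : ℕ => quadraticChar (ZMod p) (k : ZMod p) = 1)).card := by
      have := congrArg (fun x : ℤ => (x : ℂ)) h6
      push_cast at this
      exact this
    rw [hS (by omega), h1, h2, h5, h7]
  · have c2 := char2 (by omega)
    have c5 := char5 (by omega) (by omega)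
    have h1 := Pool.Agent.Q23.SP.caseB h29 c2 c5 hfif
    rw [neg_neg, neg_sq] at h1
    have h2 := Pool.Agent.Q23.SP.EE_caseB h29 c2 c5
    have h3 := Pool.Agent.Q23.SP.EE_sq (p := p) (by omega) c5
    have h4 : Pool.Agent.Q23.SP.R p Pool.Agent.Q23.SP.gold = 1 ∨
        Pool.Agent.Q23.SP.R p Pool.Agent.Q23.SP.gold = -1 := by
      rw [h2, sq_eq_one_iff] at h3
      exact h3
    have h5 := Pool.Agent.Q23.SP.R_gold_eq (p := p) (by omega) h4
    have h6 : ((-1 : ℤ) ^ n p ((p + 1) / 10)) = -(-1 : ℤ) ^ ((Finset.Icc 1 (p / 10)).filter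
      (fun k : ℕ => quadraticChar (ZMod p) (k : ZMod p) = 1)).card := by
      rw [n_eq (by omega), Pool.Agent.Q23.SP.count_pos _ (by omega) (by
        rw [Nat.even_iff]; omega)]
      rw [show (p + 1) / 10 = p / 10 + 1 by omega, Finset.prod_Icc_succ_top (by omega)]
      have h7 : quadraticChar (ZMod p) ((p / 10 + 1 : ℕ) : ZMod p) = -1 := by
        have h8 : ((10 * (p / 10 + 1) : ℕ) : ZMod p) = 1 := by
          rw [show 10 * (p / 10 + 1) = p + 1 by omega]
          push_cast
          rw [CharP.cast_eq_zero]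
          norm_num
        have h10 := congrArg (quadraticChar (ZMod p)) h8
        rw [map_one, Nat.cast_mul, map_mul,
          show ((10 : ℕ) : ZMod p) = 2 * 5 by push_cast; norm_num, map_mul, c2, c5] at h10
        linarith
      rw [h7]
      ring
    have h7 : ((-1 : ℂ) ^ n p ((p + 1) / 10)) = -(-1 : ℂ) ^ ((Finset.Icc 1 (p / 10)).filter
      (fun k : ℕ => quadraticChar (ZMod p) (k : ZMod p) = 1)).card := by
      have := congrArg (fun x : ℤ => (x : ℂ)) h6
      push_cast at this
      exact this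
    rw [hS (by omega), h1, h2, h5, h7]

end Pool.Agent.Results.MP_10d431_nt.TenthRoots
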